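import Mathlib
set_option autoImplicit false

/-! # Project FB: the square of a parametric integral -/

namespace Pool.Agent.Y833.FB

open MeasureTheory Set Metric Complex Filter
open scoped ENNReal ComplexConjugate

variable {α β : Type*} [MeasurableSpace α] [MeasurableSpace β]

theorem sq_energy (ν : Measure α) [IsFiniteMeasure ν] (m : Measure β) [SFinite m]
    (a : α → β → ℂ) (ham : Measurable fun z : α × β => a z.1 z.2) (K : ℝ) (hK0 : 0 ≤ K)
    (hK : ∀ x ξ, ‖a x ξ‖ ≤ K) (S : Set β) (hS : m S ≠ ∞)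
    (hz : ∀ x ξ, ξ ∉ S → a x ξ = 0) :
    ∫⁻ ξ, ‖∫ x, a x ξ ∂ν‖ₑ ^ (2 : ℝ) ∂m ≤
      ∫⁻ z : α × α, ‖∫ ξ, a z.1 ξ * conj (a z.2 ξ) ∂m‖ₑ ∂(ν.prod ν) := by
  have m1 : Measurable fun z : (α × α) × β => a z.1.1 z.2 :=
    ham.comp ((measurable_fst.comp measurable_fst).prodMk measurable_snd)
  have m2 : Measurable fun z : (α × α) × β => a z.1.2 z.2 :=
    ham.comp ((measurable_snd.comp measurable_fst).prodMk measurable_snd)
  have hFm : Measurable fun z : (α × α) × β => a z.1.1 z.2 * conj (a z.1.2 z.2) :=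
    m1.mul (Complex.continuous_conj.measurable.comp m2)
  have hFi : Integrable (fun z : (α × α) × β => a z.1.1 z.2 * conj (a z.1.2 z.2))
      ((ν.prod ν).prod m) := by
    have h1 : IntegrableOn (fun z : (α × α) × β => a z.1.1 z.2 * conj (a z.1.2 z.2))
        (univ ×ˢ S) ((ν.prod ν).prod m) := by
      refine Measure.integrableOn_of_bounded (M := K * K) ?_ hFm.aestronglyMeasurable
        (Eventually.of_forall fun z => ?_)
      · rw [Measure.prod_prod]
        exact (ENNReal.mul_lt_top (measure_lt_top _ _) hS.lt_top).ne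
      · rw [norm_mul, RCLike.norm_conj]
        exact mul_le_mul (hK _ _) (hK _ _) (norm_nonneg _) hK0
    refine h1.integrable_of_forall_notMem_eq_zero fun z hz' => ?_
    have hz2 : z.2 ∉ S := fun h => hz' ⟨mem_univ _, h⟩
    rw [hz _ _ hz2, zero_mul]
  have e1 : ∀ ξ, ∫ z : α × α, a z.1 ξ * conj (a z.2 ξ) ∂(ν.prod ν) =
      (∫ x, a x ξ ∂ν) * conj (∫ x, a x ξ ∂ν) := by
    intro ξ
    rw [integral_prod_mul (fun x => a x ξ) (fun y => conj (a y ξ)), integral_conj]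
  have hsw := integral_integral_swap (f := fun (z : α × α) (ξ : β) => a z.1 ξ * conj (a z.2 ξ)) hFi
  simp only [e1] at hsw
  have hHi : Integrable (fun ξ => (∫ x, a x ξ ∂ν) * conj (∫ x, a x ξ ∂ν)) m := by
    have h2 := hFi.integral_prod_right
    refine h2.congr (Eventually.of_forall fun ξ => ?_)
    exact e1 ξ
  have hsq : ∀ ξ, (∫ x, a x ξ ∂ν) * conj (∫ x, a x ξ ∂ν) =
      ((‖∫ x, a x ξ ∂ν‖ ^ 2 : ℝ) : ℂ) := by
    intro ξ
    rw [Complex.mul_conj, Complex.normSq_eq_norm_sq]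
  simp only [hsq] at hsw hHi
  have hHi' : Integrable (fun ξ => ‖∫ x, a x ξ ∂ν‖ ^ 2) m := by
    refine hHi.re.congr (Eventually.of_forall fun ξ => ?_)
    exact Complex.ofReal_re _
  have e3 : ∫⁻ ξ, ‖∫ x, a x ξ ∂ν‖ₑ ^ (2 : ℝ) ∂m = ENNReal.ofReal (∫ ξ, ‖∫ x, a x ξ ∂ν‖ ^ 2 ∂m) := by
    rw [ofReal_integral_eq_lintegral_ofReal hHi' (Eventually.of_forall fun x => by positivity)]
    refine lintegral_congr fun x => ?_
    rw [← ofReal_norm, ENNReal.ofReal_rpow_of_nonneg (norm_nonneg _) (by norm_num)]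
    congr 1
    exact_mod_cast Real.rpow_natCast _ 2
  have e4 : ENNReal.ofReal (∫ ξ, ‖∫ x, a x ξ ∂ν‖ ^ 2 ∂m) =
      ‖∫ ξ, ((‖∫ x, a x ξ ∂ν‖ ^ 2 : ℝ) : ℂ) ∂m‖ₑ := by
    rw [integral_complex_ofReal, ← ofReal_norm, Complex.norm_real, Real.norm_of_nonneg]
    exact integral_nonneg fun ξ => by positivity
  rw [e3, e4, ← hsw]
  exact enorm_integral_le_lintegral_enorm _

end Pool.Agent.Y833.FB
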