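import Pool.Agent.Y248.FB.Stm
import Pool.Agent.Y833.FB.Abs
set_option autoImplicit false

/-! # Project FB: the energy bound -/

namespace Pool.Agent.Y833.FB

open MeasureTheory Set Metric Complex Filter
open scoped ENNReal RealInnerProductSpace Topology FourierTransform ComplexConjugate
open Pool.Agent.H789R2.FR (E sg T)
open Pool.Agent.H438R2.RZ (Bump)
open Pool.Agent.Y248.BA (mu Kr Tp mu_bdd mu_far four_eq)
open Pool.Agent.Y248.FB

/-- the integrand -/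
noncomputable def aa {n : ℕ} (ψ : ℝ → ℝ) (A : ℝ) (R : E n → ℝ) (g : E n → ℂ) (x ξ : E n) : ℂ :=
  mu ψ A (R x) ξ * g x * cexp (((2 * Real.pi * ⟪x, ξ⟫ : ℝ) : ℂ) * I)

lemma mu_meas2 {n : ℕ} {ψ : ℝ → ℝ} (hψ : Bump ψ) (A : ℝ) {R : E n → ℝ} (hR : Measurable R) :
    Measurable (fun z : E n × E n => mu ψ A (R z.1) z.2) := by
  unfold mu
  refine Complex.measurable_ofReal.comp (hψ.1.continuous.measurable.comp ?_)
  have h1 : Measurable fun z : E n × E n => R z.1 := hR.comp measurable_fst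
  have h2 : Measurable fun z : E n × E n => ‖z.2‖ := measurable_snd.norm
  exact (((h1.pow_const 2).inv.mul (h2.pow_const 2)).const_sub 1).const_mul A

lemma aa_meas {n : ℕ} {ψ : ℝ → ℝ} (hψ : Bump ψ) (A : ℝ) {R : E n → ℝ} (hR : Measurable R)
    {g : E n → ℂ} (hg : Measurable g) : Measurable (fun z : E n × E n => aa ψ A R g z.1 z.2) := by
  unfold aa
  refine ((mu_meas2 hψ A hR).mul (hg.comp measurable_fst)).mul ?_
  apply Continuous.measurable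
  fun_prop

lemma aa_bdd {n : ℕ} {ψ : ℝ → ℝ} (hψ : Bump ψ) (A : ℝ) (R : E n → ℝ)
    {g : E n → ℂ} (hM : ∃ M : ℝ, ∀ x, ‖g x‖ ≤ M) : ∃ K : ℝ, 0 ≤ K ∧ ∀ x ξ, ‖aa ψ A R g x ξ‖ ≤ K := by
  obtain ⟨M, hM⟩ := hM
  obtain ⟨M', hM'0, hM'⟩ := mu_bdd hψ
  refine ⟨M' * |M|, by positivity, fun x ξ => ?_⟩
  unfold aa
  rw [norm_mul, norm_mul, Complex.norm_exp_ofReal_mul_I, mul_one]
  exact mul_le_mul (hM' _ _ _ _) ((hM x).trans (le_abs_self M)) (norm_nonneg _) hM'0.le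

lemma aa_zero {n : ℕ} {ψ : ℝ → ℝ} (hψ : Bump ψ) {A : ℝ} (hA : 0 < A) {R : E n → ℝ} (hR : Radii R)
    (g : E n → ℂ) (x ξ : E n) (h : ξ ∉ closedBall (0 : E n) 2) : aa ψ A R g x ξ = 0 := by
  rw [mem_closedBall_zero_iff, not_le] at h
  unfold aa
  rw [mu_far hψ hA (by linarith [(hR.2 x).1]) ξ (by linarith [(hR.2 x).2]), zero_mul, zero_mul]

lemma conj_exp_I (r : ℝ) : conj (cexp ((r : ℂ) * I)) = cexp (((-r : ℝ) : ℂ) * I) := by
  rw [← Complex.exp_conj, map_mul, Complex.conj_ofReal, Complex.conj_I]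
  congr 1
  push_cast
  ring

lemma mu_real {n : ℕ} (ψ : ℝ → ℝ) (A R : ℝ) (ξ : E n) : conj (mu ψ A R ξ) = mu ψ A R ξ := by
  unfold mu
  exact Complex.conj_ofReal _

lemma aa_pair {n : ℕ} (ψ : ℝ → ℝ) (A : ℝ) (R : E n → ℝ) (g : E n → ℂ) (x y : E n) :
    ∫ ξ, aa ψ A R g x ξ * conj (aa ψ A R g y ξ) = g x * conj (g y) *
      𝓕 (fun ξ : E n => mu ψ A (R x) ξ * mu ψ A (R y) ξ) (y - x) := by
  rw [four_eq, ← integral_const_mul]
  congr 1; funext ξ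
  unfold aa
  rw [map_mul, map_mul, mu_real, conj_exp_I]
  have e3 : (((-2 * Real.pi * ⟪ξ, y - x⟫ : ℝ) : ℂ) * I) =
      (((2 * Real.pi * ⟪x, ξ⟫ : ℝ) : ℂ) * I) + (((-(2 * Real.pi * ⟪y, ξ⟫) : ℝ) : ℂ) * I) := by
    rw [inner_sub_right, real_inner_comm ξ y, real_inner_comm ξ x]
    push_cast; ring
  rw [e3, Complex.exp_add]
  ring

theorem energy (n : ℕ) {ψ : ℝ → ℝ} (hψ : Bump ψ) {C A : ℝ} (_hC : 0 < C) (hA : 4 ≤ A)
    (hK : ∀ R R' : ℝ, 1 ≤ R → R ≤ 2 → 1 ≤ R' → R' ≤ 2 → ∀ w : E n,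
      ‖𝓕 (fun ξ : E n => mu ψ A R ξ * mu ψ A R' ξ) w‖ ≤ C / A * (1 + ‖w‖) ^ (-kap n))
    {R : E n → ℝ} (hR : Radii R) {g : E n → ℂ} (hg : Measurable g) (hM : ∃ M : ℝ, ∀ x, ‖g x‖ ≤ M)
    (ν : Measure (E n)) [IsFiniteMeasure ν] :
    ∫⁻ ξ, ‖Hd ψ A R g ν ξ‖ₑ ^ (2 : ℝ) ≤ ENNReal.ofReal (C / A) *
      ∫⁻ x, ∫⁻ y, ‖g x‖ₑ * ‖g y‖ₑ * ENNReal.ofReal ((1 + ‖x - y‖) ^ (-kap n)) ∂ν ∂ν := by
  have hA0 : 0 < A := by linarith
  obtain ⟨K, hK0, hKb⟩ := aa_bdd hψ A R hM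
  have ham := aa_meas hψ A hR.1 hg
  have h1 := sq_energy ν (volume : Measure (E n)) (aa ψ A R g) ham K hK0 hKb
    (closedBall (0 : E n) 2) measure_closedBall_lt_top.ne (aa_zero hψ hA0 hR g)
  have h0 : ∀ ξ, Hd ψ A R g ν ξ = ∫ x, aa ψ A R g x ξ ∂ν := fun ξ => rfl
  simp only [h0]
  refine h1.trans ?_
  have hm : Measurable fun z : E n × E n =>
      ‖g z.1‖ₑ * ‖g z.2‖ₑ * ENNReal.ofReal ((1 + ‖z.1 - z.2‖) ^ (-kap n)) := by
    have m1 : Measurable fun z : E n × E n => ‖g z.1‖ₑ := (hg.comp measurable_fst).enorm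
    have m2 : Measurable fun z : E n × E n => ‖g z.2‖ₑ := (hg.comp measurable_snd).enorm
    have m3 : Measurable fun z : E n × E n => 1 + ‖z.1 - z.2‖ := by
      apply Continuous.measurable
      fun_prop
    exact (m1.mul m2).mul (m3.pow_const _).ennreal_ofReal
  have h2 : ∫⁻ x, ∫⁻ y, ‖g x‖ₑ * ‖g y‖ₑ * ENNReal.ofReal ((1 + ‖x - y‖) ^ (-kap n)) ∂ν ∂ν =
      ∫⁻ z : E n × E n, ‖g z.1‖ₑ * ‖g z.2‖ₑ *
        ENNReal.ofReal ((1 + ‖z.1 - z.2‖) ^ (-kap n)) ∂(ν.prod ν) := by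
    rw [lintegral_prod _ hm.aemeasurable]
  rw [h2, ← lintegral_const_mul _ hm]
  refine lintegral_mono fun z => ?_
  simp only
  rw [aa_pair, enorm_mul, enorm_mul, mul_comm (ENNReal.ofReal (C / A)), mul_assoc (‖g z.1‖ₑ * ‖g z.2‖ₑ)]
  have h3 : ‖conj (g z.2)‖ₑ = ‖g z.2‖ₑ := by
    rw [← ofReal_norm, ← ofReal_norm, RCLike.norm_conj]
  rw [h3]
  refine mul_le_mul' le_rfl ?_
  rw [← ENNReal.ofReal_mul (by positivity), ← ofReal_norm]
  refine ENNReal.ofReal_le_ofReal ?_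
  refine (hK _ _ (hR.2 _).1 (hR.2 _).2 (hR.2 _).1 (hR.2 _).2 _).trans (le_of_eq ?_)
  rw [norm_sub_rev, mul_comm]

lemma kap_nonneg {n : ℕ} (hn : 2 ≤ n) : 0 ≤ kap n := by
  unfold kap
  have : (2 : ℝ) ≤ n := by exact_mod_cast hn
  linarith

/-- dyadic decomposition of the weight -/
lemma ptw {n : ℕ} (hn : 2 ≤ n) (J : ℕ) (t : ℝ) (ht0 : 0 ≤ t) (ht : t ≤ 2 ^ J) :
    ENNReal.ofReal ((1 + t) ^ (-kap n)) ≤ ∑ j ∈ Finset.range (J + 1),
      ENNReal.ofReal (2 ^ kap n * ((2 : ℝ) ^ j) ^ (-kap n)) * (if t ≤ 2 ^ j then 1 else 0) := by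
  classical
  have hk := kap_nonneg hn
  have hex : ∃ j : ℕ, t ≤ 2 ^ j := ⟨J, ht⟩
  set j := Nat.find hex with hj
  have h1 : t ≤ 2 ^ j := Nat.find_spec hex
  have h2 : j ≤ J := Nat.find_min' hex ht
  have h3 : (1 + t) ^ (-kap n) ≤ 2 ^ kap n * ((2 : ℝ) ^ j) ^ (-kap n) := by
    rcases Nat.eq_zero_or_pos j with h0 | h0
    · rw [h0, pow_zero, Real.one_rpow, mul_one]
      calc (1 + t) ^ (-kap n) ≤ 1 := Real.rpow_le_one_of_one_le_of_nonpos (by linarith) (by linarith)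
        _ ≤ 2 ^ kap n := Real.one_le_rpow (by norm_num) hk
    · have h4 : ¬ t ≤ 2 ^ (j - 1) := Nat.find_min hex (by omega)
      rw [not_le] at h4
      have h5 : (2 : ℝ) ^ j = 2 * 2 ^ (j - 1) := by
        rw [← pow_succ', Nat.sub_add_cancel h0]
      have h6 : 2 ^ kap n * ((2 : ℝ) ^ j) ^ (-kap n) = ((2 : ℝ) ^ (j - 1)) ^ (-kap n) := by
        rw [h5, Real.mul_rpow (by norm_num) (by positivity), ← mul_assoc,
          ← Real.rpow_add (by norm_num), add_neg_cancel, Real.rpow_zero, one_mul]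
      rw [h6]
      exact Real.rpow_le_rpow_of_nonpos (by positivity) (by linarith) (by linarith)
  calc ENNReal.ofReal ((1 + t) ^ (-kap n))
      ≤ ENNReal.ofReal (2 ^ kap n * ((2 : ℝ) ^ j) ^ (-kap n)) * (if t ≤ 2 ^ j then 1 else 0) := by
        rw [if_pos h1, mul_one]
        exact ENNReal.ofReal_le_ofReal h3
    _ ≤ _ := Finset.single_le_sum (f := fun j : ℕ =>
        ENNReal.ofReal (2 ^ kap n * ((2 : ℝ) ^ j) ^ (-kap n)) * (if t ≤ 2 ^ j then 1 else 0))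
        (fun _ _ => zero_le) (Finset.mem_range.2 (by omega))

lemma sumb {n : ℕ} (α p ε : ℝ) (hε : 0 < ε) : ∃ C : ℝ, 0 < C ∧ ∀ (J : ℕ) (ρ : ℝ), 1 ≤ ρ →
    (2 : ℝ) ^ J ≤ 4 * ρ → ∑ j ∈ Finset.range (J + 1), 2 ^ kap n * ((2 : ℝ) ^ j) ^ (-kap n) *
      ((2 : ℝ) ^ j) ^ (2 * α / p) ≤ C * ρ ^ (max (2 * α / p - kap n) 0 + ε) := by
  set m := max (2 * α / p - kap n) 0 with hm
  have hm0 : 0 ≤ m := le_max_right _ _
  set q : ℝ := 2 ^ (-ε) with hq
  have hq0 : 0 < q := by positivity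
  have hq1 : q < 1 := Real.rpow_lt_one_of_one_lt_of_neg (by norm_num) (by linarith)
  refine ⟨2 ^ kap n * 4 ^ (m + ε) * (1 - q)⁻¹, ?_, fun J ρ hρ hJ => ?_⟩
  · have : 0 < 1 - q := by linarith
    positivity
  have h1 : ∀ j ∈ Finset.range (J + 1), 2 ^ kap n * ((2 : ℝ) ^ j) ^ (-kap n) *
      ((2 : ℝ) ^ j) ^ (2 * α / p) ≤ 2 ^ kap n * (4 * ρ) ^ (m + ε) * q ^ j := by
    intro j hj
    have hj' : j ≤ J := by
      have := Finset.mem_range.1 hj
      omega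
    have h2 : (1 : ℝ) ≤ 2 ^ j := one_le_pow₀ (by norm_num)
    have h3 : (2 : ℝ) ^ j ≤ 4 * ρ := (pow_le_pow_right₀ (by norm_num) hj').trans hJ
    rw [mul_assoc, mul_assoc]
    refine mul_le_mul_of_nonneg_left ?_ (by positivity)
    have h4 : q ^ j = ((2 : ℝ) ^ j) ^ (-ε) := by
      rw [hq, ← Real.rpow_natCast, ← Real.rpow_mul (by norm_num), ← Real.rpow_natCast,
        ← Real.rpow_mul (by norm_num), mul_comm]
    calc ((2 : ℝ) ^ j) ^ (-kap n) * ((2 : ℝ) ^ j) ^ (2 * α / p)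
        = ((2 : ℝ) ^ j) ^ (2 * α / p - kap n) := by
          rw [← Real.rpow_add (by positivity)]
          congr 1
          ring
      _ ≤ ((2 : ℝ) ^ j) ^ m := Real.rpow_le_rpow_of_exponent_le h2 (le_max_left _ _)
      _ = ((2 : ℝ) ^ j) ^ (m + ε) * ((2 : ℝ) ^ j) ^ (-ε) := by
          rw [← Real.rpow_add (by positivity)]
          congr 1
          ring
      _ ≤ (4 * ρ) ^ (m + ε) * q ^ j := by
          rw [h4]
          refine mul_le_mul_of_nonneg_right ?_ (by positivity)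
          exact Real.rpow_le_rpow (by positivity) h3 (by linarith)
  refine (Finset.sum_le_sum h1).trans ?_
  rw [← Finset.mul_sum]
  have h5 : ∑ j ∈ Finset.range (J + 1), q ^ j ≤ (1 - q)⁻¹ := by
    rw [← tsum_geometric_of_lt_one hq0.le hq1]
    exact (summable_geometric_of_lt_one hq0.le hq1).sum_le_tsum _ (fun _ _ => by positivity)
  calc 2 ^ kap n * (4 * ρ) ^ (m + ε) * ∑ j ∈ Finset.range (J + 1), q ^ j
      ≤ 2 ^ kap n * (4 * ρ) ^ (m + ε) * (1 - q)⁻¹ := by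
        refine mul_le_mul_of_nonneg_left h5 (by positivity)
    _ = 2 ^ kap n * 4 ^ (m + ε) * (1 - q)⁻¹ * ρ ^ (m + ε) := by
        rw [Real.mul_rpow (by norm_num) (by linarith)]
        ring

theorem t_en (n : ℕ) (hn : 2 ≤ n) : S_KK n → S_HLS n → S_EN n := by
  classical
  intro hKK hHLS ψ hψ α p ε hα hp hε
  obtain ⟨C, hC, hK⟩ := hKK ψ hψ
  obtain ⟨C', hC', hS⟩ := sumb (n := n) α p ε hε
  refine ⟨C * C', by positivity, fun μ hμ A hA R hR u ρ hρ g hg hM hgs => ?_⟩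
  set B := closedBall u ρ with hB
  have hBm : MeasurableSet B := measurableSet_closedBall
  set ν := μ.restrict B with hν
  have : IsFiniteMeasure ν := by
    refine ⟨?_⟩
    rw [hν, Measure.restrict_apply MeasurableSet.univ, univ_inter]
    exact (hμ u ρ hρ).trans_lt ENNReal.ofReal_lt_top
  have hνD : Dim α ν := fun x r hr => (Measure.restrict_le_self _).trans (hμ x r hr)
  have hHd : ∀ ξ, Hd ψ A R g μ ξ = Hd ψ A R g ν ξ := by
    intro ξ
    unfold Hd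
    rw [hν, setIntegral_eq_integral_of_forall_compl_eq_zero]
    intro x hx
    rw [hgs x hx, mul_zero, zero_mul]
  simp only [hHd]
  refine (energy n hψ hC hA (fun R R' h1 h2 h3 h4 w => (hK A R R' hA h1 h2 h3 h4 w).2) hR hg hM
    ν).trans ?_
  have hA0 : 0 < A := by linarith
  -- the number of scales
  obtain ⟨N, hN1, hN2⟩ := exists_nat_pow_near (show (1 : ℝ) ≤ 2 * ρ by linarith) (show (1 : ℝ) < 2 by norm_num)
  set J := N + 1 with hJ
  have hJ1 : 2 * ρ ≤ 2 ^ J := hN2.le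
  have hJ2 : (2 : ℝ) ^ J ≤ 4 * ρ := by
    rw [hJ, pow_succ]
    linarith
  set G := ∫⁻ x, ‖g x‖ₑ ^ (p / (p - 1)) ∂ν with hG
  have hGle : G ≤ ∫⁻ x, ‖g x‖ₑ ^ (p / (p - 1)) ∂μ :=
    lintegral_mono' Measure.restrict_le_self le_rfl
  have hge : Measurable fun x => ‖g x‖ₑ := hg.enorm
  have key : ∫⁻ x, ∫⁻ y, ‖g x‖ₑ * ‖g y‖ₑ * ENNReal.ofReal ((1 + ‖x - y‖) ^ (-kap n)) ∂ν ∂ν ≤
      ∑ j ∈ Finset.range (J + 1), ENNReal.ofReal (2 ^ kap n * ((2 : ℝ) ^ j) ^ (-kap n)) *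
        ∫⁻ x, ∫⁻ y in closedBall x (2 ^ j), ‖g x‖ₑ * ‖g y‖ₑ ∂ν ∂ν := by
    have e1 : ∀ x, x ∈ B → ∫⁻ y, ‖g x‖ₑ * ‖g y‖ₑ * ENNReal.ofReal ((1 + ‖x - y‖) ^ (-kap n)) ∂ν ≤
        ∑ j ∈ Finset.range (J + 1), ENNReal.ofReal (2 ^ kap n * ((2 : ℝ) ^ j) ^ (-kap n)) *
          ∫⁻ y in closedBall x (2 ^ j), ‖g x‖ₑ * ‖g y‖ₑ ∂ν := by
      intro x hx
      have e2 : ∀ j : ℕ, ENNReal.ofReal (2 ^ kap n * ((2 : ℝ) ^ j) ^ (-kap n)) *
          ∫⁻ y in closedBall x (2 ^ j), ‖g x‖ₑ * ‖g y‖ₑ ∂ν =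
          ∫⁻ y, ENNReal.ofReal (2 ^ kap n * ((2 : ℝ) ^ j) ^ (-kap n)) *
            (closedBall x (2 ^ j)).indicator (fun y => ‖g x‖ₑ * ‖g y‖ₑ) y ∂ν := by
        intro j
        rw [lintegral_const_mul _ ((hge.const_mul _).indicator measurableSet_closedBall),
          lintegral_indicator measurableSet_closedBall]
      simp only [e2]
      rw [← lintegral_finsetSum _ (fun j _ =>
        (((hge.const_mul _).indicator measurableSet_closedBall).const_mul _))]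
      refine lintegral_mono_ae ?_
      filter_upwards [ae_restrict_mem hBm] with y hy
      have hd : ‖x - y‖ ≤ 2 ^ J := by
        rw [← dist_eq_norm]
        have h1 : dist x y ≤ dist x u + dist y u := dist_triangle_right _ _ _
        have h2 : dist x u ≤ ρ := hx
        have h3 : dist y u ≤ ρ := hy
        linarith
      calc ‖g x‖ₑ * ‖g y‖ₑ * ENNReal.ofReal ((1 + ‖x - y‖) ^ (-kap n))
          ≤ ‖g x‖ₑ * ‖g y‖ₑ * ∑ j ∈ Finset.range (J + 1),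
            ENNReal.ofReal (2 ^ kap n * ((2 : ℝ) ^ j) ^ (-kap n)) *
              (if ‖x - y‖ ≤ 2 ^ j then 1 else 0) :=
            mul_le_mul' le_rfl (ptw hn J _ (norm_nonneg _) hd)
        _ = _ := by
            rw [Finset.mul_sum]
            refine Finset.sum_congr rfl fun j _ => ?_
            by_cases h : ‖x - y‖ ≤ 2 ^ j
            · have h' : y ∈ closedBall x ((2 : ℝ) ^ j) := by
                rw [mem_closedBall, dist_comm, dist_eq_norm]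
                exact h
              rw [if_pos h, indicator_of_mem h']
              ring
            · have h' : y ∉ closedBall x ((2 : ℝ) ^ j) := by
                rw [mem_closedBall, dist_comm, dist_eq_norm]
                exact h
              rw [if_neg h, indicator_of_notMem h']
              ring
    have e3 : ∫⁻ x, ∫⁻ y, ‖g x‖ₑ * ‖g y‖ₑ * ENNReal.ofReal ((1 + ‖x - y‖) ^ (-kap n)) ∂ν ∂ν ≤
        ∫⁻ x, ∑ j ∈ Finset.range (J + 1),
          ENNReal.ofReal (2 ^ kap n * ((2 : ℝ) ^ j) ^ (-kap n)) *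
          ∫⁻ y in closedBall x (2 ^ j), ‖g x‖ₑ * ‖g y‖ₑ ∂ν ∂ν := by
      refine lintegral_mono_ae ?_
      filter_upwards [ae_restrict_mem hBm] with x hx
      exact e1 x hx
    refine e3.trans (le_of_eq ?_)
    have hm : ∀ j : ℕ, Measurable fun x => ∫⁻ y in closedBall x ((2 : ℝ) ^ j), ‖g x‖ₑ * ‖g y‖ₑ ∂ν := by
      intro j
      have h1 : ∀ x, ∫⁻ y in closedBall x ((2 : ℝ) ^ j), ‖g x‖ₑ * ‖g y‖ₑ ∂ν =
          ∫⁻ y, {z : E n × E n | dist z.2 z.1 ≤ 2 ^ j}.indicator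
            (fun z => ‖g z.1‖ₑ * ‖g z.2‖ₑ) (x, y) ∂ν := by
        intro x
        rw [← lintegral_indicator measurableSet_closedBall]
        rfl
      simp only [h1]
      refine Measurable.lintegral_prod_right' (f := {z : E n × E n | dist z.2 z.1 ≤ 2 ^ j}.indicator
            (fun z => ‖g z.1‖ₑ * ‖g z.2‖ₑ)) ?_
      refine Measurable.indicator ((hge.comp measurable_fst).mul (hge.comp measurable_snd)) ?_
      exact measurableSet_le (measurable_snd.dist measurable_fst) measurable_const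
    rw [lintegral_finsetSum _ (fun j _ => (hm j).const_mul _)]
    refine Finset.sum_congr rfl fun j _ => ?_
    rw [lintegral_const_mul _ (hm j)]
  have key2 : ∑ j ∈ Finset.range (J + 1), ENNReal.ofReal (2 ^ kap n * ((2 : ℝ) ^ j) ^ (-kap n)) *
        ∫⁻ x, ∫⁻ y in closedBall x (2 ^ j), ‖g x‖ₑ * ‖g y‖ₑ ∂ν ∂ν ≤
      ENNReal.ofReal (C' * ρ ^ (max (2 * α / p - kap n) 0 + ε)) * G ^ (2 * (p - 1) / p) := by
    calc _ ≤ ∑ j ∈ Finset.range (J + 1), ENNReal.ofReal (2 ^ kap n * ((2 : ℝ) ^ j) ^ (-kap n)) *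
          (ENNReal.ofReal (((2 : ℝ) ^ j) ^ (2 * α / p)) * G ^ (2 * (p - 1) / p)) := by
          refine Finset.sum_le_sum fun j _ => mul_le_mul' le_rfl ?_
          exact hHLS α p hα hp ν hνD (fun x => ‖g x‖ₑ) hge (2 ^ j) (one_le_pow₀ (by norm_num))
      _ = ENNReal.ofReal (∑ j ∈ Finset.range (J + 1), 2 ^ kap n * ((2 : ℝ) ^ j) ^ (-kap n) *
            ((2 : ℝ) ^ j) ^ (2 * α / p)) * G ^ (2 * (p - 1) / p) := by
          rw [ENNReal.ofReal_sum_of_nonneg (fun j _ => by positivity), Finset.sum_mul]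
          refine Finset.sum_congr rfl fun j _ => ?_
          rw [← mul_assoc, ← ENNReal.ofReal_mul (by positivity)]
      _ ≤ _ := mul_le_mul' (ENNReal.ofReal_le_ofReal (hS J ρ hρ hJ2)) le_rfl
  have hexp : 0 ≤ 2 * (p - 1) / p := by
    have : 0 < p := by linarith
    have : 0 ≤ p - 1 := by linarith
    positivity
  calc ENNReal.ofReal (C / A) *
      ∫⁻ x, ∫⁻ y, ‖g x‖ₑ * ‖g y‖ₑ * ENNReal.ofReal ((1 + ‖x - y‖) ^ (-kap n)) ∂ν ∂ν
      ≤ ENNReal.ofReal (C / A) * (ENNReal.ofReal (C' * ρ ^ (max (2 * α / p - kap n) 0 + ε)) *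
        G ^ (2 * (p - 1) / p)) := mul_le_mul' le_rfl (key.trans key2)
    _ = ENNReal.ofReal (C * C' / A * ρ ^ (max (2 * α / p - kap n) 0 + ε)) *
        G ^ (2 * (p - 1) / p) := by
        rw [← mul_assoc, ← ENNReal.ofReal_mul (by positivity)]
        congr 2
        ring
    _ ≤ _ := mul_le_mul' le_rfl (ENNReal.rpow_le_rpow hGle hexp)

end Pool.Agent.Y833.FB
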